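import Pool.Agent.J4.H7.CC.Round

set_option autoImplicit false
set_option linter.unusedSectionVars false

/-!
Circuit covers of weightings `p = r + x`, where `x` is a nonnegative combination of circuits of
bounded length and `r` is near-constant.
-/

namespace Pool.Agent.J4.H7.CC

open Finset
open Pool.Agent.H126R2.CDC (MGraph)
open Pool.Agent.H126R2.NC (TC InCone InLat InIntCone)
open Pool.Agent.W831.ECC (tc_of_lat bridgeless_of_lat tc_of_two circuit_cut RCone rcone_of_cut)
open Pool.Agent.W831.ECC.Gad (CutC Lv)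

/-- the bound -/
noncomputable def bd (l N : ℕ) : ℝ :=
  min (Real.sqrt l * (1 + Real.log (1 + N)) ^ (1 / 4 : ℝ))
    (Real.sqrt l + (1 + Real.log l) ^ (3 / 2 : ℝ) * Real.sqrt (Real.log (1 + N)))

lemma log_nn (N : ℕ) : 0 ≤ Real.log (1 + (N : ℝ)) :=
  Real.log_nonneg (by have : (0 : ℝ) ≤ N := Nat.cast_nonneg N; linarith)

lemma log_nl (l : ℕ) : 0 ≤ Real.log (l : ℝ) := by
  rcases Nat.eq_zero_or_pos l with h | h
  · rw [h]; simp
  · exact Real.log_nonneg (by exact_mod_cast h)

lemma one_le_bd (l N : ℕ) (hl : 1 ≤ l) : 1 ≤ bd l N := by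
  have h1 : (1 : ℝ) ≤ Real.sqrt l := Real.one_le_sqrt.2 (by exact_mod_cast hl)
  have h2 := log_nn N
  have h3 := log_nl l
  unfold bd
  apply le_min
  · have h4 : (1 : ℝ) ≤ (1 + Real.log (1 + N)) ^ (1 / 4 : ℝ) :=
      Real.one_le_rpow (by linarith) (by norm_num)
    nlinarith
  · have h4 : 0 ≤ (1 + Real.log l) ^ (3 / 2 : ℝ) * Real.sqrt (Real.log (1 + N)) := by positivity
    linarith

lemma bd_mono (l l' N : ℕ) (h : l ≤ l') (hl : 1 ≤ l) : bd l N ≤ bd l' N := by
  have h0 : (l : ℝ) ≤ l' := by exact_mod_cast h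
  have h00 : (0 : ℝ) < l := by exact_mod_cast hl
  have h1 : Real.sqrt (l : ℝ) ≤ Real.sqrt l' := Real.sqrt_le_sqrt h0
  have h2 := log_nn N
  have h3 := log_nl l
  have h4 : Real.log (l : ℝ) ≤ Real.log l' := Real.log_le_log h00 h0
  unfold bd
  apply min_le_min
  · exact mul_le_mul_of_nonneg_right h1 (by positivity)
  · have h5 : (1 + Real.log (l : ℝ)) ^ (3 / 2 : ℝ) ≤ (1 + Real.log l') ^ (3 / 2 : ℝ) :=
      Real.rpow_le_rpow (by linarith) (by linarith) (by norm_num)
    have h6 := mul_le_mul_of_nonneg_right h5 (Real.sqrt_nonneg (Real.log (1 + (N : ℝ))))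
    linarith

lemma kom_bd (l N : ℕ) (hl : 1 ≤ l) (hlN : l ≤ N) :
    Real.sqrt l * kom (1 / Real.sqrt l) N ≤ 2 * bd l N := by
  have hl0 : (1 : ℝ) ≤ l := by exact_mod_cast hl
  have hs1 : (1 : ℝ) ≤ Real.sqrt l := Real.one_le_sqrt.2 hl0
  have hs0 : (0 : ℝ) < Real.sqrt l := by linarith
  have h2 := log_nn N
  have h3 := log_nl l
  have hN1 : (1 : ℝ) ≤ N := by exact_mod_cast hl.trans hlN
  have hlog : Real.log (1 / (1 / Real.sqrt (l : ℝ))) = Real.log l / 2 := by
    rw [one_div_one_div, Real.log_sqrt (by linarith)]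
  have hlN' : Real.log (l : ℝ) ≤ Real.log (1 + N) := by
    apply Real.log_le_log (by linarith)
    have : (l : ℝ) ≤ N := by exact_mod_cast hlN
    linarith
  have hlog2 : 0.69 ≤ Real.log (1 + (N : ℝ)) := by
    have h1 : Real.log 2 ≤ Real.log (1 + (N : ℝ)) := Real.log_le_log (by norm_num) (by linarith)
    have := Real.log_two_gt_d9
    linarith
  unfold kom bd
  rw [hlog]
  rcases min_choice (Real.sqrt (l : ℝ) * (1 + Real.log (1 + N)) ^ (1 / 4 : ℝ))
    (Real.sqrt l + (1 + Real.log l) ^ (3 / 2 : ℝ) * Real.sqrt (Real.log (1 + N))) with hm | hm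
  · rw [hm]
    refine (mul_le_mul_of_nonneg_left (min_le_left _ _) hs0.le).trans ?_
    have h4 : (1 + Real.log l / 2 + Real.log (1 + (N : ℝ))) ^ (1 / 4 : ℝ) ≤
        (16 * (1 + Real.log (1 + (N : ℝ)))) ^ (1 / 4 : ℝ) :=
      Real.rpow_le_rpow (by linarith) (by linarith) (by norm_num)
    have h5 : (16 * (1 + Real.log (1 + (N : ℝ)))) ^ (1 / 4 : ℝ) =
        2 * (1 + Real.log (1 + (N : ℝ))) ^ (1 / 4 : ℝ) := by
      rw [Real.mul_rpow (by norm_num) (by linarith)]
      congr 1
      rw [show (16 : ℝ) = 2 ^ (4 : ℝ) by norm_num, ← Real.rpow_mul (by norm_num)]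
      norm_num
    rw [h5] at h4
    have h6 := mul_le_mul_of_nonneg_left h4 hs0.le
    linarith
  · rw [hm]
    refine (mul_le_mul_of_nonneg_left (min_le_right _ _) hs0.le).trans ?_
    have h4 : Real.sqrt (1 + Real.log l / 2 + Real.log (1 + (N : ℝ))) ≤
        2 * Real.sqrt (Real.log (1 + (N : ℝ))) := by
      rw [show (2 : ℝ) * Real.sqrt (Real.log (1 + (N : ℝ))) =
        Real.sqrt (4 * Real.log (1 + (N : ℝ))) by
          rw [Real.sqrt_mul (by norm_num), show (4 : ℝ) = 2 ^ 2 by norm_num,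
            Real.sqrt_sq (by norm_num)]]
      apply Real.sqrt_le_sqrt
      linarith
    have h5 : (1 + Real.log l / 2) ^ (3 / 2 : ℝ) ≤ (1 + Real.log l) ^ (3 / 2 : ℝ) :=
      Real.rpow_le_rpow (by linarith) (by linarith) (by norm_num)
    have h6 : Real.sqrt (1 + Real.log l / 2 + Real.log (1 + (N : ℝ))) *
        (1 + Real.log l / 2) ^ (3 / 2 : ℝ) ≤
        2 * Real.sqrt (Real.log (1 + (N : ℝ))) * (1 + Real.log l) ^ (3 / 2 : ℝ) :=
      mul_le_mul h4 h5 (by positivity) (by positivity)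
    have h7 : Real.sqrt (l : ℝ) * (1 + 1 / Real.sqrt (l : ℝ) *
        Real.sqrt (1 + Real.log l / 2 + Real.log (1 + (N : ℝ))) *
        (1 + Real.log l / 2) ^ (3 / 2 : ℝ)) = Real.sqrt l +
        Real.sqrt (1 + Real.log l / 2 + Real.log (1 + (N : ℝ))) *
        (1 + Real.log l / 2) ^ (3 / 2 : ℝ) := by
      field_simp
    rw [h7]
    linarith

variable {V E : Type} [Fintype V] [DecidableEq V] [Fintype E] [DecidableEq E]

theorem round_len (s : Finset (Finset E)) (w : Finset E → ℝ) (l : ℕ) (hl : 1 ≤ l)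
    (hE : 1 ≤ Fintype.card E) (hs : ∀ C ∈ s, C.card ≤ l) :
    ∃ z : Finset E → ℕ, ∀ e, |err s w z e| ≤ 70000000 * bd l (Fintype.card E) := by
  set l' := min l (Fintype.card E) with hl'
  have h1 : 1 ≤ l' := le_min hl hE
  have h1R : (1 : ℝ) ≤ l' := by exact_mod_cast h1
  have hs1 : (1 : ℝ) ≤ Real.sqrt l' := Real.one_le_sqrt.2 h1R
  have hs0 : (0 : ℝ) < Real.sqrt l' := by linarith
  obtain ⟨z, hz⟩ := round_komlos s w (1 / Real.sqrt l') (by positivity)
    (by rw [div_le_one hs0]; exact hs1) (fun _ => 1 / Real.sqrt l') (fun _ => by positivity)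
    (fun _ => le_rfl) (by
      intro C hC
      have h2 : C.card ≤ l' := le_min (hs C hC) (Finset.card_le_univ C)
      have h2R : (C.card : ℝ) ≤ l' := by exact_mod_cast h2
      rw [Finset.sum_const, nsmul_eq_mul, div_pow, one_pow, Real.sq_sqrt (by linarith)]
      rw [mul_one_div, div_le_one (by linarith)]
      exact h2R)
  refine ⟨z, fun e => ?_⟩
  have h3 := hz e
  rw [mul_one_div, div_le_iff₀ hs0] at h3
  have h4 := kom_bd l' (Fintype.card E) h1 (min_le_right _ _)
  have h5 := bd_mono l' l (Fintype.card E) (min_le_left _ _) h1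
  calc |err s w z e| ≤ 35000000 * (Real.sqrt l' * kom (1 / Real.sqrt l') (Fintype.card E)) := by
        linarith
    _ ≤ 35000000 * (2 * bd l' (Fintype.card E)) := by linarith
    _ ≤ 70000000 * bd l (Fintype.card E) := by linarith

/-- the main theorem, with bounded circuit lengths -/
theorem cover_len (G : MGraph V E) (p : E → ℕ) (hlat : InLat G p) (l : ℕ) (r : E → ℝ)
    (w : Finset E → ℝ) (hw : ∀ C, 0 ≤ w C) (hw2 : ∀ C, w C ≠ 0 → G.IsCircuit C ∧ C.card ≤ l)
    (hp : ∀ e, (p e : ℝ) = r e + ∑ C, (if e ∈ C then w C else 0))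
    (hr : (∀ e f, 7 * r e + 16 * l + 91 ≤ 9 * r f) ∨
      (1 ≤ l ∧ ∀ e f, 7 * r e + 1200000000 * bd l (Fintype.card E) ≤ 9 * r f)) :
    InIntCone G p := by
  classical
  by_cases hE : IsEmpty E
  · exact ⟨0, by simp, fun e => (hE.false e).elim⟩
  rw [not_isEmpty_iff] at hE
  have hcard : 1 ≤ Fintype.card E := Fintype.card_pos
  set s : Finset (Finset E) := univ.filter (fun C => w C ≠ 0) with hs
  have hs1 : ∀ C ∈ s, G.IsCircuit C := fun C hC => (hw2 C (Finset.mem_filter.1 hC).2).1
  have hs2 : ∀ C ∈ s, C.card ≤ l := fun C hC => (hw2 C (Finset.mem_filter.1 hC).2).2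
  have hp' : ∀ e, (p e : ℝ) = r e + ∑ C ∈ s, (if e ∈ C then w C else 0) := by
    intro e
    rw [hp e]
    congr 1
    symm
    apply Finset.sum_subset (Finset.subset_univ s)
    intro C _ hC
    have h1 : w C = 0 := by
      by_contra h
      exact hC (Finset.mem_filter.2 ⟨Finset.mem_univ _, h⟩)
    rw [h1]
    simp
  rcases hr with hr | ⟨hl, hr⟩
  · obtain ⟨z, hz⟩ := round_bf s w l (Nat.cast_nonneg l) (fun _ => 1) (fun _ => by norm_num) (by
      intro C hC
      rw [Finset.sum_const, nsmul_eq_mul, mul_one]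
      exact_mod_cast hs2 C hC)
    exact cover_of_err G p hlat s hs1 r w hw hp' z l (fun e => by
      have := hz e
      rwa [mul_one] at this) hr
  · obtain ⟨z, hz⟩ := round_len s w l hl hcard hs2
    refine cover_of_err G p hlat s hs1 r w hw hp' z _ hz (fun e f => ?_)
    have h1 := hr e f
    have h2 := one_le_bd l (Fintype.card E) hl
    linarith

lemma card_circuit_le (G : MGraph V E) (C : Finset E) (hC : G.IsCircuit C) :
    C.card ≤ Fintype.card V := by
  have h1 : ∑ v, G.deg C v = 2 * C.card := by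
    have h1 : ∀ v ∈ (univ : Finset V), G.deg C v = ∑ e ∈ C, G.ep e v :=
      fun v _ => G.deg_eq_sum C v
    rw [Finset.sum_congr rfl h1, Finset.sum_comm]
    have h2 : ∀ e ∈ C, ∑ v, G.ep e v = 2 := fun e _ => G.sum_ep e
    rw [Finset.sum_congr rfl h2, Finset.sum_const, smul_eq_mul, mul_comm]
  have h2 : ∑ v, G.deg C v ≤ ∑ v : V, 2 := by
    apply Finset.sum_le_sum
    intro v _
    rcases hC.2.1 v with h | h <;> omega
  rw [h1, Finset.sum_const, Finset.card_univ, smul_eq_mul] at h2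
  omega

/-- the cut conditions for `p - L` -/
lemma cutC_const (G : MGraph V E) (p : E → ℕ) (hlat : InLat G p) (hpos : ∀ e, 0 < p e)
    (v : E × Bool → V) (hv : ∀ e, G.ends e = s(v (e, false), v (e, true))) (L : ℝ)
    (hcut : ∀ (S : Finset V) (e : E), Lv v S e →
      2 ≤ (univ.filter (fun f => f ≠ e ∧ Lv v S f)).card →
      (p e : ℝ) - L ≤ ∑ f ∈ univ.filter (fun f => f ≠ e ∧ Lv v S f), ((p f : ℝ) - L)) :
    CutC v (fun e => (p e : ℝ) - L) := by
  have hbr := bridgeless_of_lat G p hlat hpos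
  intro S e he
  set D : Finset E := univ.filter (fun f => f ≠ e ∧ Lv v S f) with hD
  rw [← Finset.sum_filter, ← hD]
  rcases Nat.lt_or_ge D.card 2 with hk | hk
  · obtain ⟨C, hC, heC⟩ := hbr e
    obtain ⟨f, hfC, hfe, hf⟩ := circuit_cut G v hv C hC S e heC he
    have hfD : f ∈ D := Finset.mem_filter.2 ⟨Finset.mem_univ _, hfe, hf⟩
    have hD1 : D.card = 1 := by
      have : 0 < D.card := Finset.card_pos.2 ⟨f, hfD⟩
      omega
    obtain ⟨g, hg⟩ := Finset.card_eq_one.1 hD1
    have hfg : f = g := by rw [hg] at hfD; exact Finset.mem_singleton.1 hfD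
    subst hfg
    have htcef : TC (fun e => v (e, false)) (fun e => v (e, true)) e f := by
      apply tc_of_two v S e f hfe
      intro g
      constructor
      · intro hgL
        by_cases hge : g = e
        · exact Or.inl hge
        · right
          have : g ∈ D := Finset.mem_filter.2 ⟨Finset.mem_univ _, hge, hgL⟩
          rw [hg] at this
          exact Finset.mem_singleton.1 this
      · rintro (hge | hgf)
        · rw [hge]; exact he
        · rw [hgf]; exact hf
    have h1 : (p e : ℤ) = p f := tc_of_lat G v hv htcef _ hlat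
    have h2 : p e = p f := by exact_mod_cast h1
    rw [hg, Finset.sum_singleton]
    show (p e : ℝ) - L ≤ p f - L
    rw [h2]
  · exact hcut S e he hk

/-- Deep weightings, the depth being measured in the cuts. -/
theorem cover_deep (G : MGraph V E) (p : E → ℕ) (hlat : InLat G p) (L : ℝ)
    (hL : 1200000000 * bd (Fintype.card V) (Fintype.card E) ≤ L) (hLp : ∀ e, L ≤ p e)
    (hcut : ∀ (S : Finset V) (B : Finset E),
      (∀ f, f ∈ B ↔ ∃ a ∈ S, ∃ b ∉ S, G.ends f = s(a, b)) → 3 ≤ B.card →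
      ∀ e ∈ B, (p e : ℝ) + L * (B.card - 2) ≤ ∑ f ∈ B.erase e, (p f : ℝ)) : InIntCone G p := by
  classical
  by_cases hE : IsEmpty E
  · exact ⟨0, by simp, fun e => (hE.false e).elim⟩
  rw [not_isEmpty_iff] at hE
  obtain ⟨e0⟩ := hE
  obtain ⟨v, hv⟩ := G.exists_halves
  have hV : 1 ≤ Fintype.card V := Fintype.card_pos_iff.2 ⟨v (e0, false)⟩
  have hb := one_le_bd (Fintype.card V) (Fintype.card E) hV
  have hpos : ∀ e, 0 < p e := by
    intro e
    have h1 := hLp e
    have h2 : (0 : ℝ) < p e := by linarith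
    exact_mod_cast h2
  have hC := cutC_const G p hlat hpos v hv L (by
    intro S e he hk
    set B : Finset E := univ.filter (fun f => Lv v S f) with hB
    have h7 : univ.filter (fun f => f ≠ e ∧ Lv v S f) = B.erase e := by
      ext f
      simp [hB, Finset.mem_erase]
    have heB : e ∈ B := by simp [hB, he]
    rw [h7] at hk ⊢
    have hce : (B.erase e).card = B.card - 1 := Finset.card_erase_of_mem heB
    have hB3 : 3 ≤ B.card := by omega
    have h1 := hcut S B (by
      intro f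
      have h2 := Pool.Agent.W831.ECC.mem_cutEdges G v hv S f
      unfold Pool.Agent.W831.ECC.cutEdges at h2
      rw [Set.mem_ofPred_eq] at h2
      rw [h2]
      simp [hB]) hB3 e heB
    rw [Finset.sum_sub_distrib, Finset.sum_const, nsmul_eq_mul, hce,
      Nat.cast_sub (by omega : 1 ≤ B.card)]
    push_cast
    linarith)
  obtain ⟨w, hw0, hw1, hw2⟩ := rcone_of_cut G v hv (fun e => (p e : ℝ) - L)
    (fun e => by have := hLp e; show (0 : ℝ) ≤ p e - L; linarith) hC
  refine cover_len G p hlat (Fintype.card V) (fun _ => L) w hw0 (fun C hC => ?_) (fun e => ?_)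
    (Or.inr ⟨hV, fun e f => by linarith⟩)
  · have h1 : G.IsCircuit C := by
      by_contra h
      exact hC (hw1 C h)
    exact ⟨h1, card_circuit_le G C h1⟩
  · have h1 : (p e : ℝ) - L = ∑ C : Finset E, w C * (if e ∈ C then 1 else 0) := hw2 e
    have h2 : ∑ C : Finset E, w C * (if e ∈ C then 1 else 0) =
        ∑ C : Finset E, (if e ∈ C then w C else 0) := by
      apply Finset.sum_congr rfl
      intro C _
      split_ifs <;> ring
    rw [h2] at h1
    linarith

end Pool.Agent.J4.H7.CC
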