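import Pool.Agent.J4.H7.CC.Len

set_option autoImplicit false

/-!
Seymour's even circuit cover conjecture for weightings deep inside the cone of the circuits, with a
depth that depends on the lengths of the circuits and not on the size of the weights.
-/

namespace Pool.Agent.J4.H7.CC.DepthFromLength

open Pool.Agent.H126R2.CDC (MGraph)

/-- The depth that is needed for circuits with at most `l` edges in a graph with `N` edges. -/
noncomputable def depth (l N : ℕ) : ℝ :=
  min (Real.sqrt l * (1 + Real.log (1 + N)) ^ (1 / 4 : ℝ))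
    (Real.sqrt l + (1 + Real.log l) ^ (3 / 2 : ℝ) * Real.sqrt (Real.log (1 + N)))

/-- There is an absolute constant `K` with the following property. Let `G` be a finite graph and let
`p` be a weighting of its edges by natural numbers (even or not, and arbitrarily large) in the
lattice of the circuits.

* (near-constant plus cone) Suppose that `p = r + x`, where `x` is a nonnegative real combination of
  circuits with at most `l` edges and `r` is a real vector with `7 r(e) + 16 l + 91 ≤ 9 r(f)` for any
  two edges, or with `7 r(e) + K depth(l, |E|) ≤ 9 r(f)` for any two edges and `l ≥ 1`. Then `(G, p)`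
  has a circuit cover.
* (deep weightings) Suppose that `L ≥ K depth(|V|, |E|)`, that `p(e) ≥ L` for every edge, and that
  `p(e) + L (|B| - 2) ≤ p(B \ e)` for every edge cut `B` with at least three edges and every edge `e`
  of `B` (these conditions say that `p - L` lies in the cone of the circuits). Then `(G, p)` has a
  circuit cover. -/
theorem result : ∃ K : ℝ, ∀ (V E : Type) [Fintype V] [DecidableEq V] [Fintype E] [DecidableEq E]
    (G : MGraph V E) (p : E → ℕ),
    (fun e => (p e : ℤ)) ∈ AddSubgroup.closure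
      {x : E → ℤ | ∃ C, G.IsCircuit C ∧ x = fun e => if e ∈ C then 1 else 0} →
    (∀ (l : ℕ) (r : E → ℝ) (w : Finset E → ℝ), (∀ C, 0 ≤ w C) →
      (∀ C, w C ≠ 0 → G.IsCircuit C ∧ C.card ≤ l) →
      (∀ e, (p e : ℝ) = r e + ∑ C : Finset E, (if e ∈ C then w C else 0)) →
      (∀ e f, 7 * r e + 16 * l + 91 ≤ 9 * r f) ∨
        (1 ≤ l ∧ ∀ e f, 7 * r e + K * depth l (Fintype.card E) ≤ 9 * r f) →
      ∃ F : Multiset (Finset E), (∀ C ∈ F, G.IsCircuit C) ∧
        ∀ e, F.countP (fun C => e ∈ C) = p e) ∧
    (∀ L : ℝ, K * depth (Fintype.card V) (Fintype.card E) ≤ L → (∀ e, L ≤ p e) →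
      (∀ (S : Finset V) (B : Finset E),
        (∀ f, f ∈ B ↔ ∃ a ∈ S, ∃ b ∉ S, G.ends f = s(a, b)) → 3 ≤ B.card →
        ∀ e ∈ B, (p e : ℝ) + L * (B.card - 2) ≤ ∑ f ∈ B.erase e, (p f : ℝ)) →
      ∃ F : Multiset (Finset E), (∀ C ∈ F, G.IsCircuit C) ∧
        ∀ e, F.countP (fun C => e ∈ C) = p e) :=
  ⟨1200000000, fun _ _ _ _ _ _ G p hlat =>
    ⟨fun l r w hw hw2 hp hr => Pool.Agent.J4.H7.CC.cover_len G p hlat l r w hw hw2 hp hr,
      fun L hL hLp hcut => Pool.Agent.J4.H7.CC.cover_deep G p hlat L hL hLp hcut⟩⟩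

end Pool.Agent.J4.H7.CC.DepthFromLength
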