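import Pool.Agent.N411.CV.Cover
import Pool.Agent.W831.ECC.Slack

set_option autoImplicit false
set_option linter.unusedSectionVars false

/-!
Splitting off an integer combination of circuits from a weighting `p = r + x`, where `x` is a
nonnegative real combination of circuits: the rest is close to `r`.
-/

namespace Pool.Agent.J4.H7.CC

open Finset
open Pool.Agent.H126R2.CDC (MGraph)
open Pool.Agent.H126R2.NC (TC InCone InLat InIntCone cone_lat_of_intCone)
open Pool.Agent.TH399.CC (odd_part)
open Pool.Agent.W831.ECC (tc_of_lat bridgeless_of_lat intCone_comb)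

variable {V E : Type} [Fintype V] [DecidableEq V] [Fintype E] [DecidableEq E]

/-- Weights in the lattice within a factor of about `9 / 7` have a circuit cover. -/
theorem cover_of_lat (G : MGraph V E) (p : E → ℕ) (hlat : InLat G p)
    (hr : ∀ e f, 7 * p e + 91 ≤ 9 * p f) : InIntCone G p := by
  obtain ⟨v, hv⟩ := G.exists_halves
  have hpos : ∀ e, 0 < p e := fun e => by
    have := hr e e
    omega
  have hbr := bridgeless_of_lat G p hlat hpos
  have h3 := Pool.Agent.N411.CV.cover_even G hbr v hv (fun e => p e / 2)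
    (fun e f hef => by
      have h4 : (p e : ℤ) = p f := tc_of_lat G v hv hef _ hlat
      have h5 : p e = p f := by exact_mod_cast h4
      show p e / 2 = p f / 2
      rw [h5])
    (fun e f => by
      have := hr e f
      show 7 * (p e / 2) + 41 ≤ 9 * (p f / 2)
      omega)
  exact Pool.Agent.TH399.CC.intCone_add G h3 (odd_part G p hlat)
    (fun e => (Nat.div_add_mod (p e) 2).symm)

/-- the rounding error at the edge `e` -/
noncomputable def err (s : Finset (Finset E)) (w : Finset E → ℝ) (z : Finset E → ℕ) (e : E) : ℝ :=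
  ∑ C ∈ s, (if e ∈ C then ((z C : ℝ) - Int.fract (w C)) else 0)

theorem residue (G : MGraph V E) (p : E → ℕ) (hlat : InLat G p) (s : Finset (Finset E))
    (hs : ∀ C ∈ s, G.IsCircuit C) (r : E → ℝ) (w : Finset E → ℝ) (hw : ∀ C, 0 ≤ w C)
    (hp : ∀ e, (p e : ℝ) = r e + ∑ C ∈ s, (if e ∈ C then w C else 0)) (z : Finset E → ℕ)
    (hle : ∀ e, err s w z e ≤ r e) :
    ∃ q : E → ℕ, InLat G q ∧ (InIntCone G q → InIntCone G p) ∧
      ∀ e, (q e : ℝ) = r e - err s w z e := by
  classical
  set n : Finset E → ℕ := fun C => ⌊w C⌋₊ + z C with hn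
  set S : E → ℕ := fun e => ∑ C ∈ s, n C * (if e ∈ C then 1 else 0) with hS
  have hSr : ∀ e, (S e : ℝ) = (p e : ℝ) - r e + err s w z e := by
    intro e
    rw [hp e]
    simp only [hS, err, Nat.cast_sum]
    rw [add_sub_cancel_left, ← Finset.sum_add_distrib]
    apply Finset.sum_congr rfl
    intro C _
    by_cases he : e ∈ C
    · simp only [he, if_true, hn]
      push_cast
      have h3 : ((⌊w C⌋₊ : ℕ) : ℝ) = (⌊w C⌋ : ℝ) := natCast_floor_eq_intCast_floor (hw C)
      rw [h3]
      have h4 := Int.floor_add_fract (w C)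
      linarith
    · simp [he]
  have hSp : ∀ e, S e ≤ p e := by
    intro e
    have h1 := hSr e
    have h2 := hle e
    have h3 : (S e : ℝ) ≤ p e := by linarith
    exact_mod_cast h3
  have hSI : InIntCone G S := intCone_comb G s hs n
  refine ⟨fun e => p e - S e, ?_, ?_, ?_⟩
  · have h1 : (fun e => ((p e - S e : ℕ) : ℤ)) = (fun e => (p e : ℤ)) - (fun e => (S e : ℤ)) := by
      ext e
      rw [Pi.sub_apply]
      push_cast [Nat.cast_sub (hSp e)]
      rfl
    show (fun e => ((p e - S e : ℕ) : ℤ)) ∈ _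
    rw [h1]
    exact AddSubgroup.sub_mem _ hlat (cone_lat_of_intCone G S hSI).2
  · intro hq
    exact Pool.Agent.TH399.CC.intCone_add G hq hSI (fun e => by have := hSp e; omega)
  · intro e
    show ((p e - S e : ℕ) : ℝ) = _
    rw [Nat.cast_sub (hSp e), hSr e]
    ring

/-- the cover, given a rounding of the coefficients with small errors -/
theorem cover_of_err (G : MGraph V E) (p : E → ℕ) (hlat : InLat G p) (s : Finset (Finset E))
    (hs : ∀ C ∈ s, G.IsCircuit C) (r : E → ℝ) (w : Finset E → ℝ) (hw : ∀ C, 0 ≤ w C)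
    (hp : ∀ e, (p e : ℝ) = r e + ∑ C ∈ s, (if e ∈ C then w C else 0)) (z : Finset E → ℕ) (β : ℝ)
    (hz : ∀ e, |err s w z e| ≤ β) (hr : ∀ e f, 7 * r e + 16 * β + 91 ≤ 9 * r f) :
    InIntCone G p := by
  obtain ⟨q, hq1, hq2, hq3⟩ := residue G p hlat s hs r w hw hp z (fun e => by
    have h1 := abs_le.1 (hz e)
    have h2 := hr e e
    have h3 : 0 ≤ β := (abs_nonneg _).trans (hz e)
    linarith [h1.2])
  apply hq2
  apply cover_of_lat G q hq1
  intro e f
  have h1 : (7 : ℝ) * q e + 91 ≤ 9 * q f := by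
    rw [hq3 e, hq3 f]
    have h2 := abs_le.1 (hz e)
    have h3 := abs_le.1 (hz f)
    have h4 := hr e f
    linarith [h2.1, h3.2]
  exact_mod_cast h1

end Pool.Agent.J4.H7.CC
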