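import Pool.Agent.J4.H7.CC.Residue
import Pool.Agent.N664.ND.BF
import Pool.Agent.H167R2.KNLin

set_option autoImplicit false
set_option linter.unusedSectionVars false

/-!
Rounding the coefficients of a combination of circuits.
-/

namespace Pool.Agent.J4.H7.CC

open Finset

variable {E : Type} [Fintype E] [DecidableEq E]

/-- from signs to rounding -/
lemma err_of_sign (s : Finset (Finset E)) (w : Finset E → ℝ) (χ : {C // C ∈ s} → ℝ)
    (hχ : ∀ C, χ C = 1 ∨ χ C = -1) (e : E) :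
    err s w (fun C => if h : C ∈ s then (if χ ⟨C, h⟩ = 1 then 1 else 0) else 0) e =
      1 / 2 * ∑ C : {C // C ∈ s}, (if e ∈ C.1 then 1 else 0) *
        (χ C - (2 * Int.fract (w C.1) - 1)) := by
  classical
  unfold err
  rw [Finset.mul_sum, ← Finset.sum_coe_sort s]
  apply Finset.sum_congr rfl
  intro C _
  obtain ⟨C, hC⟩ := C
  simp only [hC, dif_pos]
  by_cases he : e ∈ C
  · simp only [he, if_true]
    rcases hχ ⟨C, hC⟩ with h | h
    · rw [h]; simp; ring
    · rw [h]; norm_num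
      ring
  · simp [he]

/-- Rounding with weights `1 / r` (Beck–Fiala). -/
theorem round_bf (s : Finset (Finset E)) (w : Finset E → ℝ) (δ : ℝ) (hδ : 0 ≤ δ) (τ : E → ℝ)
    (hτ : ∀ e, 0 ≤ τ e) (hs : ∀ C ∈ s, ∑ e ∈ C, τ e ≤ δ) :
    ∃ z : Finset E → ℕ, ∀ e, |err s w z e| * τ e ≤ δ := by
  classical
  obtain ⟨χ, h1, -, h3⟩ := Pool.Agent.N664.ND.round (A := {C // C ∈ s}) (Λ := E) δ hδ
    (fun C e => if e ∈ C.1 then τ e else 0) (by
      rintro ⟨C, hC⟩
      have h4 : ∀ e ∈ (univ : Finset E), |if e ∈ C then τ e else 0| =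
          if e ∈ C then τ e else 0 := by
        intro e _
        split_ifs
        · exact abs_of_nonneg (hτ e)
        · exact abs_zero
      rw [Finset.sum_congr rfl h4, ← Finset.sum_filter]
      have h5 : univ.filter (fun e => e ∈ C) = C := by ext; simp
      rw [h5]
      exact hs C hC) _ (fun C => 2 * Int.fract (w C.1) - 1) (by
      intro C
      have h4 := Int.fract_nonneg (w C.1)
      have h5 := (Int.fract_lt_one (w C.1)).le
      rw [abs_le]
      constructor <;> linarith) le_rfl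
  refine ⟨fun C => if h : C ∈ s then (if χ ⟨C, h⟩ = 1 then 1 else 0) else 0, fun e => ?_⟩
  rw [err_of_sign s w χ h1 e]
  have h4 := h3 e
  have h5 : ∑ C : {C // C ∈ s}, (χ C - (2 * Int.fract (w C.1) - 1)) *
      (if e ∈ C.1 then τ e else 0) = (∑ C : {C // C ∈ s}, (if e ∈ C.1 then 1 else 0) *
        (χ C - (2 * Int.fract (w C.1) - 1))) * τ e := by
    rw [Finset.sum_mul]
    apply Finset.sum_congr rfl
    intro C _
    split_ifs <;> ring
  rw [h5, abs_mul, abs_of_nonneg (hτ e)] at h4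
  rw [abs_mul, abs_of_nonneg (by norm_num : (0 : ℝ) ≤ 1 / 2)]
  linarith

/-- the bound -/
noncomputable def kom (δ : ℝ) (N : ℕ) : ℝ :=
  min ((1 + Real.log (1 / δ) + Real.log (1 + N)) ^ (1 / 4 : ℝ))
    (1 + δ * Real.sqrt (1 + Real.log (1 / δ) + Real.log (1 + N)) *
      (1 + Real.log (1 / δ)) ^ (3 / 2 : ℝ))

/-- Rounding with weights (Komlós setting). -/
theorem round_komlos (s : Finset (Finset E)) (w : Finset E → ℝ) (δ : ℝ) (hδ0 : 0 < δ)
    (hδ1 : δ ≤ 1) (τ : E → ℝ) (hτ : ∀ e, 0 ≤ τ e) (hτδ : ∀ e, τ e ≤ δ)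
    (hs : ∀ C ∈ s, ∑ e ∈ C, τ e ^ 2 ≤ 1) :
    ∃ z : Finset E → ℕ, ∀ e, |err s w z e| * τ e ≤ 35000000 * kom δ (Fintype.card E) := by
  classical
  obtain ⟨χ, h1, h3⟩ := H167KN.komlos_form2 (I := E) (J := {C // C ∈ s})
    (fun e C => if e ∈ C.1 then τ e else 0) δ hδ0 hδ1 (by
      intro e C
      split_ifs
      · rw [abs_of_nonneg (hτ e)]; exact hτδ e
      · rw [abs_zero]; exact hδ0.le) (by
      rintro ⟨C, hC⟩
      have h4 : ∀ e ∈ (univ : Finset E), (if e ∈ C then τ e else 0) ^ 2 =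
          if e ∈ C then τ e ^ 2 else 0 := by
        intro e _
        split_ifs
        · rfl
        · norm_num
      rw [Finset.sum_congr rfl h4, ← Finset.sum_filter]
      have h5 : univ.filter (fun e => e ∈ C) = C := by ext; simp
      rw [h5]
      exact hs C hC) (max 1 (Fintype.card {C // C ∈ s})) (le_max_left _ _) (by
      intro v
      exact (Finset.card_le_univ _).trans (le_max_right _ _)) 0
    (fun C => 2 * Int.fract (w C.1) - 1) (by
      intro C
      have h4 := Int.fract_nonneg (w C.1)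
      have h5 := (Int.fract_lt_one (w C.1)).le
      rw [abs_le]
      constructor <;> linarith)
  refine ⟨fun C => if h : C ∈ s then (if χ ⟨C, h⟩ = 1 then 1 else 0) else 0, fun e => ?_⟩
  rw [err_of_sign s w χ (fun C => eq_or_eq_neg_of_abs_eq (h1 C)) e]
  have h4 := h3 e
  have h5 : ∑ C : {C // C ∈ s}, (if e ∈ C.1 then τ e else 0) *
      (χ C - (2 * Int.fract (w C.1) - 1)) = (∑ C : {C // C ∈ s}, (if e ∈ C.1 then 1 else 0) *
        (χ C - (2 * Int.fract (w C.1) - 1))) * τ e := by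
    rw [Finset.sum_mul]
    apply Finset.sum_congr rfl
    intro C _
    split_ifs <;> ring
  rw [h5, abs_mul, abs_of_nonneg (hτ e)] at h4
  rw [abs_mul, abs_of_nonneg (by norm_num : (0 : ℝ) ≤ 1 / 2)]
  have hld : 0 ≤ Real.log (1 / δ) := Real.log_nonneg (by rw [le_div_iff₀ hδ0]; linarith)
  have hmin : ((min (Fintype.card E) (Fintype.card {C // C ∈ s}) : ℕ) : ℝ) ≤ Fintype.card E := by
    exact_mod_cast min_le_left _ _
  have hm0 : (0 : ℝ) ≤ ((min (Fintype.card E) (Fintype.card {C // C ∈ s}) : ℕ) : ℝ) :=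
    Nat.cast_nonneg _
  have hlog : H167BK.slog^[0 + 1]
      ((min (Fintype.card E) (Fintype.card {C // C ∈ s}) : ℕ) : ℝ) ≤
      Real.log (1 + (Fintype.card E : ℝ)) := by
    show Real.log (1 + _) ≤ _
    apply Real.log_le_log (by linarith)
    linarith
  have hlog0 : 0 ≤ H167BK.slog^[0 + 1]
      ((min (Fintype.card E) (Fintype.card {C // C ∈ s}) : ℕ) : ℝ) :=
    H167BK.slog_iter_nonneg _ hm0
  have hkom : min ((1 + Real.log (1 / δ) + H167BK.slog^[0 + 1]
        ((min (Fintype.card E) (Fintype.card {C // C ∈ s}) : ℕ) : ℝ)) ^ (1 / 4 : ℝ))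
      (1 + δ * Real.sqrt (1 + Real.log (1 / δ) + H167BK.slog^[0 + 1]
        ((min (Fintype.card E) (Fintype.card {C // C ∈ s}) : ℕ) : ℝ)) *
        (1 + Real.log (1 / δ)) ^ (3 / 2 : ℝ)) ≤ kom δ (Fintype.card E) := by
    unfold kom
    apply min_le_min
    · apply Real.rpow_le_rpow (by linarith) (by linarith) (by norm_num)
    · have h6 : 0 ≤ (1 + Real.log (1 / δ)) ^ (3 / 2 : ℝ) := by positivity
      have h7 := Real.sqrt_le_sqrt (show 1 + Real.log (1 / δ) + H167BK.slog^[0 + 1]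
        ((min (Fintype.card E) (Fintype.card {C // C ∈ s}) : ℕ) : ℝ) ≤
          1 + Real.log (1 / δ) + Real.log (1 + (Fintype.card E : ℝ)) by linarith)
      have h8 := mul_le_mul_of_nonneg_right (mul_le_mul_of_nonneg_left h7 hδ0.le) h6
      linarith
  rw [Nat.cast_zero, zero_mul, zero_add] at h4
  have h9 := h4.trans (mul_le_mul_of_nonneg_left hkom (by norm_num : (0 : ℝ) ≤ 70000000))
  linarith

end Pool.Agent.J4.H7.CC
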